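import Mathlib
import Pool.Agent.MP_7f5071_gt.Reduce
import Pool.Agent.MP_7f5071_gt.One
import Pool.Agent.MP_7f5071_gt.BL

/-! Every length space homeomorphic to the closed disc is an inverse limit of Minkowski
2-polyhedra. -/

namespace Pool.Agent.Results.MP_7f5071_gt.ProMinkowski

open Pool.Agent.MP_7f5071_gt

universe u

theorem result (X : Type u) [MetricSpace X] (hl : IsLengthSpace X)
    (hd : Nonempty (X ≃ₜ Metric.closedBall (0 : EuclideanSpace ℝ (Fin 2)) 1)) :
    IsProMinkowski 2 X :=
  final_of' (star_of rl bl one) X hl hd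

end Pool.Agent.Results.MP_7f5071_gt.ProMinkowski
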